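import Pool.Agent.H242.GX.Stm2

/-! # `S_EVENM` (helper286; adapted from helper707's `S_EVEN`) -/

set_option autoImplicit false

open Set Filter Topology
open scoped ContDiff

namespace Pool.Agent.H286.GX

open Pool.Agent.H242.GX

theorem deriv_zero {f : ℝ → ℝ} (hf : DifferentiableAt ℝ f 0) (h0 : ∀ y ≤ 0, f y = 0) :
    deriv f 0 = 0 := by
  have h1 := hf.hasDerivAt.hasDerivWithinAt (s := Set.Iic 0)
  have h2 : HasDerivWithinAt f 0 (Set.Iic 0) 0 :=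
    (hasDerivWithinAt_const (0 : ℝ) (Set.Iic (0 : ℝ)) (0 : ℝ)).congr (fun y hy => h0 y hy)
      (h0 0 le_rfl)
  exact (uniqueDiffWithinAt_Iic (0 : ℝ)).eq_deriv _ h1 h2

theorem diff_y {P : ℝ × ℝ → ℝ} (hP : ContDiff ℝ ∞ P) (φ : ℝ) :
    DifferentiableAt ℝ (fun y => P (φ, y)) 0 := by
  have h1 : ContDiff ℝ ∞ (fun y : ℝ => P (φ, y)) := hP.comp (contDiff_const.prodMk contDiff_id)
  exact (h1.differentiable (by simp)).differentiableAt

theorem odd_add (X : ℝ × ℝ → ℝ × ℝ) (H P : ℝ × ℝ → ℝ) (θ t : ℝ) :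
    Odd X (fun x => H x + P x) θ t = Odd X H θ t + Odd X P θ t := by
  unfold Pool.Agent.H242.GX.Odd
  ring

theorem flat_add {X : ℝ × ℝ → ℝ × ℝ} {H P : ℝ × ℝ → ℝ} (hH : Flat X H) (hP : Flat X P) :
    Flat X (fun x => H x + P x) := by
  intro N
  obtain ⟨E, h1, h2, h3⟩ := hH N
  obtain ⟨F, k1, k2, k3⟩ := hP N
  refine ⟨fun x => E x + F x, h1.add k1, fun θ t => ?_, fun θ t => ?_⟩
  · change E _ + F _ = E _ + F _
    rw [h2, k2]
  · rw [odd_add, h3, k3]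
    ring

theorem odd_per {X Z : ℝ × ℝ → ℝ × ℝ} (w : Web X Z) {H : ℝ × ℝ → ℝ}
    (hH : ∀ φ y : ℝ, H (φ + 2 * Real.pi, y) = H (φ, y)) (t : ℝ) :
    Function.Periodic (fun θ => Odd X H θ t) (2 * Real.pi) := by
  intro θ
  change Odd X H (θ + 2 * Real.pi) t = Odd X H θ t
  unfold Pool.Agent.H242.GX.Odd
  rw [w.per, w.per]
  change H ((X (θ, t)).1 + 2 * Real.pi, (X (θ, t)).2 ^ 2) -
    H ((X (θ, -t)).1 + 2 * Real.pi, (X (θ, -t)).2 ^ 2) = _
  rw [hH, hH]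

theorem gx_EVENM (hPRE : S_PRE) (hFLAT0 : S_FLAT0) (hCORR : S_CORR) : S_EVENM := by
  intro X Z w H0 a1 a2 a3 a5
  obtain ⟨P1, b1, b2, b3, r1, hr1, b4⟩ := hPRE X Z w H0 a1 a2 a5
  have c1 : ContDiff ℝ ∞ (fun x => H0 x + P1 x) := a1.add b1
  have c2 : ∀ φ y : ℝ, (fun x => H0 x + P1 x) (φ + 2 * Real.pi, y) =
      (fun x => H0 x + P1 x) (φ, y) := by
    intro φ y
    change H0 _ + P1 _ = H0 _ + P1 _
    rw [a2, b2]
  have c3 : Flat X (fun x => H0 x + P1 x) :=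
    flat_add a5 (hFLAT0 X Z w P1 b1 b2 b3)
  obtain ⟨P2, d1, d2, d3, ⟨r2, hr2, d4⟩, d5⟩ := hCORR X Z w _ c1 c2 c3
  refine ⟨fun x => (fun x => H0 x + P1 x) x + P2 x, c1.add d1, ?_, ?_, ?_, ?_⟩
  · intro φ y
    change (H0 _ + P1 _) + P2 _ = (H0 _ + P1 _) + P2 _
    rw [a2, b2, d2]
  · intro φ
    change (H0 _ + P1 _) + P2 _ = 0
    rw [a3, b3 _ _ le_rfl, d3 _ _ le_rfl]
    ring
  · intro φ
    have e1 : deriv (fun y => (H0 (φ, y) + P1 (φ, y)) + P2 (φ, y)) 0 =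
        deriv (fun y => H0 (φ, y)) 0 := by
      have h1 := (diff_y a1 φ).hasDerivAt
      have h2 := (diff_y b1 φ).hasDerivAt
      have h3 := (diff_y d1 φ).hasDerivAt
      rw [deriv_zero (diff_y b1 φ) (fun y hy => b3 φ y hy)] at h2
      rw [deriv_zero (diff_y d1 φ) (fun y hy => d3 φ y hy)] at h3
      have h4 := ((h1.add h2).add h3).deriv
      rw [add_zero, add_zero] at h4
      exact h4
    exact e1
  · have key : ∀ θ : ℝ, 0 ≤ θ → θ < 2 * Real.pi → ∃ r : ℝ, 0 < r ∧ ∀ t : ℝ, |t| < r →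
        Odd X (fun x => (fun x => H0 x + P1 x) x + P2 x) θ t = 0 := by
      intro θ h0 h1
      rcases eq_or_lt_of_le h0 with h | h
      · subst h
        refine ⟨min r1 r2, lt_min hr1 hr2, fun t ht => ?_⟩
        rw [odd_add X (fun x => H0 x + P1 x) P2, b4 t (ht.trans_le (min_le_left _ _)), zero_add]
        unfold Pool.Agent.H242.GX.Odd
        rw [d4 t (ht.trans_le (min_le_right _ _)),
          d4 (-t) (by rw [abs_neg]; exact ht.trans_le (min_le_right _ _)), sub_zero]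
      · exact d5 θ h h1
    intro θ
    have h0 : 0 ≤ toIcoMod Real.two_pi_pos 0 θ := left_le_toIcoMod _ _ _
    have h1 : toIcoMod Real.two_pi_pos 0 θ < 2 * Real.pi := by
      have := toIcoMod_lt_right Real.two_pi_pos 0 θ
      rwa [zero_add] at this
    obtain ⟨r, hr, hO⟩ := key _ h0 h1
    refine ⟨r, hr, fun t ht => ?_⟩
    have h2 : ∀ φ y : ℝ, (fun x => (fun x => H0 x + P1 x) x + P2 x) (φ + 2 * Real.pi, y) =
        (fun x => (fun x => H0 x + P1 x) x + P2 x) (φ, y) := by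
      intro φ y
      change (H0 _ + P1 _) + P2 _ = (H0 _ + P1 _) + P2 _
      rw [a2, b2, d2]
    have h3 := ((odd_per (H := fun x => (fun x => H0 x + P1 x) x + P2 x) w h2 t).zsmul
      (toIcoDiv Real.two_pi_pos 0 θ))
      (toIcoMod Real.two_pi_pos 0 θ)
    rw [toIcoMod_add_toIcoDiv_zsmul] at h3
    rw [← hO t ht]
    exact h3

end Pool.Agent.H286.GX
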